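import Pool.Agent.Run7.h527.TP.M
import Pool.Agent.Results.MP_e54452_nt.AlmostAllTuples

/-!
# MP_e54452_nt: the period map and relations at ALL arguments near aliquot sums, cototients and arithmetic derivatives

Let `G` be a `ℚ`-algebra without zero divisors with elements `mot(k)` for the admissible indices `k` that have the stuffle
product, and with a ring homomorphism `per` to `ℂ` that maps `mot(k)` to `ζ(k)`; for example the motivic multiple zeta
values with the period map. A pattern in `k` variables is a list of letters `b + u_1 s_1 + ... + u_k s_k`; at a tuple `s` it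
gives an index. Its constant part is the list of its first letters up to the first letter that depends on the variables.

Let `F_1, …, F_k` be functions such as the sum of the proper divisors, the cototient `m - φ(m)`, the arithmetic derivative, or
a positive combination `α m + β f(m)`, with `f = σ`, `φ` or the arithmetic derivative. Let `k (θ + 1 - τ) < 1`, `τ ≤ 1`. For all
tuples `m ∈ [1, N] ^ k` whose entries have two prime factors `p ≠ q`, not dividing `m_i / (p q) ≥ 2`, with `p q ≥ m_i^τ`, but at
most `N^(k - δ)` of them, for ALL tuples `s` with `|s_i - F_i(m_i)| ≤ F_i(m_i)^θ`, `T ≤ s_i ≤ κ T`, and for relations with integer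
coefficients at most `C^T` (`Near`):

(1) each linear relation between the numbers `ζ(w_i(s))` splits into relations between initial segments of the constant parts;
(2) if `per` is injective on the span of the `mot(q)`, `q ∈ Q`, for a set `Q` of indices with their initial segments, then each
linear relation between the `ζ(w_i(s))` lifts to the `mot(w_i(s))`, for patterns with constant parts in `Q`; if it is injective
on the algebra generated by them, this is true for polynomial relations of bounded degree;
(3) unconditionally, if `mot(2, 1) = mot(3)` then the linear relations lift for constant parts of weight at most three, and if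
`mot(2 m)` is a rational multiple of `mot(2) ^ m` then the polynomial relations of bounded degree lift for constant parts
`(2 m, ..., 2 m)`.

In one variable, for every `ε > 0` there is `θ > 0` such that (1), (2), (3) hold for ALL `m ≤ N` but `ε N` (`NearOne`).

Proof. Write `m = j p q`. Then `F(m) = a p q + b (p + q) + c` with integers `a ≠ 0`, `b`, `c` which depend on `j` only, and
`(a p + b) (a q + b) = a F(m) + b² - a c`. So for given `j` every value is taken for at most `N^ε` pairs `p`, `q` (the tool
`Run7/h527/TP`), and by the starting theorem `AlmostAllTuples` the bad tuples in `[N, κ N] ^ k` are at most `K N^(k - 1)`.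
For small `τ` all but `ε N` integers have two such primes, by the second moment of the number of the prime factors in
`(N^(τ / 2), N^(1 / 8))`. The starting library treats multiplicative `F_i`, on other pages.
-/

set_option autoImplicit false

namespace Pool.Agent.Results.MP_e54452_nt.AliquotSums

open AlmostAllTuples (mzv Letter index AdmissiblePattern constantPart MotivicValues AlmostAll Splits Lifts PolyLifts FrontSet
  EulerRelations)
open Run7.h527.TP (Bil Near NearOne FewTuples near near_one aliquot cototient deriv sig comb)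

/-- each linear relation between the numbers `ζ(w_i(s))` with integer coefficients at most `B` splits into relations between
the initial segments of the constant parts -/
def AllSplit {k r : ℕ} (w : Fin r → List (Letter k)) (B : ℝ) (s : Fin k → ℕ) : Prop :=
  ∀ c : Fin r → ℤ, (∀ i, |(c i : ℝ)| ≤ B) → ∑ i, (c i : ℝ) * mzv (index s (w i)) = 0 → Splits w s c

theorem mono_split {k r : ℕ} (w : Fin r → List (Letter k)) (H H' : ℝ) (s : Fin k → ℕ) (h : H ≤ H')
    (hB : ¬ AllSplit w H s) : ¬ AllSplit w H' s :=
  fun h1 => hB fun c hc => h1 c fun i => (hc i).trans h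

theorem mono_lifts (G : MotivicValues) {k r : ℕ} (w : Fin r → List (Letter k)) (H H' : ℝ) (s : Fin k → ℕ) (h : H ≤ H')
    (hB : ¬ Lifts G w H s) : ¬ Lifts G w H' s :=
  fun h1 => hB fun c hc => h1 c fun i => (hc i).trans h

theorem mono_poly (G : MotivicValues) {k r : ℕ} (w : Fin r → List (Letter k)) (D : ℕ) (H H' : ℝ) (s : Fin k → ℕ)
    (h : H ≤ H') (hB : ¬ PolyLifts G w D H s) : ¬ PolyLifts G w D H' s :=
  fun h1 => hB fun P hD hP => h1 P hD fun m => (hP m).trans h

/-- the four cases of the starting theorem -/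
theorem cases (G : MotivicValues) (k : ℕ) (S : (ℝ → (Fin k → ℕ) → Prop) → Prop)
    (hS : ∀ P : ℝ → (Fin k → ℕ) → Prop, (∀ H H' s, H ≤ H' → ¬ P H s → ¬ P H' s) → AlmostAll k P →
      S fun B s => ¬ P B s) :
    (∀ (r : ℕ) (w : Fin r → List (Letter k)), (∀ i, AdmissiblePattern (w i)) → S fun B s => ¬ AllSplit w B s) ∧
    (∀ Q : Set (List ℕ), FrontSet Q →
      ((∀ x ∈ Submodule.span ℚ (G.mot '' Q), G.per x = 0 → x = 0) → ∀ (r : ℕ) (w : Fin r → List (Letter k)),
        (∀ i, AdmissiblePattern (w i) ∧ constantPart (w i) ∈ Q) → S fun B s => ¬ Lifts G w B s) ∧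
      ((∀ x ∈ Algebra.adjoin ℚ (G.mot '' Q), G.per x = 0 → x = 0) → ∀ (r : ℕ) (w : Fin r → List (Letter k)),
        (∀ i, AdmissiblePattern (w i) ∧ constantPart (w i) ∈ Q) → ∀ D : ℕ, S fun B s => ¬ PolyLifts G w D B s)) ∧
    (G.mot [2, 1] = G.mot [3] → ∀ (r : ℕ) (w : Fin r → List (Letter k)),
      (∀ i, AdmissiblePattern (w i) ∧ (constantPart (w i)).sum ≤ 3) → S fun B s => ¬ Lifts G w B s) ∧
    (EulerRelations G → ∀ (r : ℕ) (w : Fin r → List (Letter k)),
      (∀ i, AdmissiblePattern (w i) ∧ ∃ n m : ℕ, 1 ≤ m ∧ constantPart (w i) = List.replicate n (2 * m)) →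
      ∀ D : ℕ, S fun B s => ¬ PolyLifts G w D B s) := by
  obtain ⟨h1, h2, h3, -, h5⟩ := AlmostAllTuples.result G
  refine ⟨fun r w hw => hS _ (mono_split w) (h1 k r w hw), fun Q hQ => ⟨fun h r w hw => ?_, fun h r w hw D => ?_⟩,
    fun h r w hw => hS _ (mono_lifts G w) (h3 h k r w hw), fun h r w hw D => hS _ (mono_poly G w D) (h5 h k r w hw D)⟩
  · have h6 := (h2 Q hQ).1.out 0 1
    exact hS _ (mono_lifts G w) (h6.1 h k r w hw)
  · have h6 := (h2 Q hQ).2.2.out 0 1
    exact hS _ (mono_poly G w D) (h6.1 h k r w hw D)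

/-- **Theorem.** See the explanation above: `Near E`: near almost all tuples of values `F_i(m_i)`, `F_i` in the class `Bil`, the
property `E` fails; `NearOne E`: for every `ε > 0` there is `θ > 0` such that it fails for all `s` near `F(m)`, for all `m ≤ N` but
`ε N`. The sum of the proper divisors, the cototient, the arithmetic derivative and their positive combinations with the
identity are in `Bil`. -/
theorem result (G : MotivicValues) :
    (∀ k : ℕ, 1 ≤ k →
      (∀ (r : ℕ) (w : Fin r → List (Letter k)), (∀ i, AdmissiblePattern (w i)) → Near fun B s => ¬ AllSplit w B s) ∧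
      (∀ Q : Set (List ℕ), FrontSet Q →
        ((∀ x ∈ Submodule.span ℚ (G.mot '' Q), G.per x = 0 → x = 0) → ∀ (r : ℕ) (w : Fin r → List (Letter k)),
          (∀ i, AdmissiblePattern (w i) ∧ constantPart (w i) ∈ Q) → Near fun B s => ¬ Lifts G w B s) ∧
        ((∀ x ∈ Algebra.adjoin ℚ (G.mot '' Q), G.per x = 0 → x = 0) → ∀ (r : ℕ) (w : Fin r → List (Letter k)),
          (∀ i, AdmissiblePattern (w i) ∧ constantPart (w i) ∈ Q) → ∀ D : ℕ, Near fun B s => ¬ PolyLifts G w D B s)) ∧
      (G.mot [2, 1] = G.mot [3] → ∀ (r : ℕ) (w : Fin r → List (Letter k)),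
        (∀ i, AdmissiblePattern (w i) ∧ (constantPart (w i)).sum ≤ 3) → Near fun B s => ¬ Lifts G w B s) ∧
      (EulerRelations G → ∀ (r : ℕ) (w : Fin r → List (Letter k)),
        (∀ i, AdmissiblePattern (w i) ∧ ∃ n m : ℕ, 1 ≤ m ∧ constantPart (w i) = List.replicate n (2 * m)) →
        ∀ D : ℕ, Near fun B s => ¬ PolyLifts G w D B s)) ∧
    ((∀ (r : ℕ) (w : Fin r → List (Letter 1)), (∀ i, AdmissiblePattern (w i)) → NearOne fun B s => ¬ AllSplit w B s) ∧
      (∀ Q : Set (List ℕ), FrontSet Q →
        ((∀ x ∈ Submodule.span ℚ (G.mot '' Q), G.per x = 0 → x = 0) → ∀ (r : ℕ) (w : Fin r → List (Letter 1)),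
          (∀ i, AdmissiblePattern (w i) ∧ constantPart (w i) ∈ Q) → NearOne fun B s => ¬ Lifts G w B s) ∧
        ((∀ x ∈ Algebra.adjoin ℚ (G.mot '' Q), G.per x = 0 → x = 0) → ∀ (r : ℕ) (w : Fin r → List (Letter 1)),
          (∀ i, AdmissiblePattern (w i) ∧ constantPart (w i) ∈ Q) → ∀ D : ℕ, NearOne fun B s => ¬ PolyLifts G w D B s)) ∧
      (G.mot [2, 1] = G.mot [3] → ∀ (r : ℕ) (w : Fin r → List (Letter 1)),
        (∀ i, AdmissiblePattern (w i) ∧ (constantPart (w i)).sum ≤ 3) → NearOne fun B s => ¬ Lifts G w B s) ∧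
      (EulerRelations G → ∀ (r : ℕ) (w : Fin r → List (Letter 1)),
        (∀ i, AdmissiblePattern (w i) ∧ ∃ n m : ℕ, 1 ≤ m ∧ constantPart (w i) = List.replicate n (2 * m)) →
        ∀ D : ℕ, NearOne fun B s => ¬ PolyLifts G w D B s)) ∧
    Bil aliquot ∧ Bil cototient ∧ Bil deriv ∧
      (∀ α β : ℤ, (∀ m : ℕ, 2 ≤ m → 0 < α * m + β * sig m) → Bil (comb α β sig)) ∧
      (∀ α β : ℤ, (∀ m : ℕ, 2 ≤ m → 0 < α * m + β * Nat.totient m) → Bil (comb α β Nat.totient)) ∧
      ∀ α β : ℤ, (∀ m : ℕ, 2 ≤ m → 0 < α * m + β * deriv m) → Bil (comb α β deriv) :=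
  ⟨fun k hk => cases G k Near fun _ hP h => near hk hP h, cases G 1 NearOne fun _ hP h => near_one hP h,
    Run7.h527.TP.examples⟩

end Pool.Agent.Results.MP_e54452_nt.AliquotSums
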