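import Pool.Agent.Run7.h697.TP.Direct
import Pool.Agent.Run7.h851.T.Final

/-!
# MP_e54452_nt: the period map on the motivic zeta values of depth one and weight at most `63`

`H` is a `ℚ`-algebra with elements `mot(k)` for the admissible indices `k`, `mot() = 1`, and with a ring homomorphism
`per : H → ℂ` with `per(mot(k)) = ζ(k)`; for example the motivic periods of the mixed Tate motives over `ℤ` with the
motivic multiple zeta values. Then `per` has rank at least `4` on the span of `1, mot(3), mot(5), ..., mot(63)`, and it is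
injective on the span of `1, mot(3), mot(b), mot(c)` for some `b ∈ {5, 7}` and some odd `c`, `b < c ≤ 63`.
-/

set_option autoImplicit false

namespace Pool.Agent.Results.MP_e54452_nt.FourMotivicZetaValues

/-- `trunc [s_1, ..., s_r] m` is the sum of `∏ n_i ^ (-s_i)` over `m > n_1 > ... > n_r ≥ 1` -/
noncomputable def trunc : List ℕ → ℕ → ℝ
  | [], _ => 1
  | s :: l, m => ∑ j ∈ Finset.Ico 1 m, trunc l j / (j : ℝ) ^ s

/-- the multiple zeta value `ζ(s_1, ..., s_r)`, the sum of `∏ n_i ^ (-s_i)` over
`n_1 > ... > n_r ≥ 1`; `ζ() = 1` -/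
noncomputable def mzv : List ℕ → ℝ
  | [] => 1
  | s :: l => ∑' m : ℕ, trunc l (m + 1) / ((m + 1 : ℕ) : ℝ) ^ s

/-- admissible indices: the empty index and `(s_1, ..., s_r)` with `s_1 ≥ 2` and all `s_i ≥ 1` -/
def Admissible : List ℕ → Prop
  | [] => True
  | s :: l => 2 ≤ s ∧ ∀ t ∈ l, 1 ≤ t

/-- a `ℚ`-algebra with elements for the indices and a period map; the motivic periods of the mixed Tate motives over `ℤ`
with the motivic multiple zeta values are the main example -/
structure MotivicValues where
  /-- the algebra -/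
  H : Type
  [ring : CommRing H]
  [alg : Algebra ℚ H]
  /-- the elements -/
  mot : List ℕ → H
  mot_nil : mot [] = 1
  /-- the period map -/
  per : H →+* ℂ
  per_mot : ∀ k : List ℕ, Admissible k → per (mot k) = (mzv k : ℂ)

attribute [instance] MotivicValues.ring MotivicValues.alg

theorem mzv_single {s : ℕ} : mzv [s] = Pool.Agent.H337R2.zr s := by
  unfold mzv Pool.Agent.H337R2.zr
  refine tsum_congr fun m => ?_
  rw [trunc]
  push_cast
  rfl

/-- the elements `1, mot(3), mot(5), ..., mot(63)` -/
def family (M : MotivicValues) (i : Fin 32) : M.H := if i.1 = 0 then 1 else M.mot [2 * i.1 + 1]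

/-- the period map as a `ℚ`-linear map -/
noncomputable def perL (M : MotivicValues) : M.H →ₗ[ℚ] ℂ := M.per.toRatAlgHom.toLinearMap

theorem perL_apply (M : MotivicValues) (x : M.H) : perL M x = M.per x := rfl

theorem per_single (M : MotivicValues) {s : ℕ} (hs : 2 ≤ s) :
    M.per (M.mot [s]) = ((Pool.Agent.H337R2.zr s : ℝ) : ℂ) := by
  rw [M.per_mot [s] ⟨hs, by simp⟩, mzv_single]

/-- (1) The image under `per` of the `ℚ`-span of `1, mot(3), mot(5), ..., mot(63)` has dimension at least `4`.
(2) There are `b ∈ {5, 7}` and an odd `c` with `b < c ≤ 63` (the same for all `M`) such that `per` is injective on the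
`ℚ`-span of `1, mot(3), mot(b), mot(c)`, which has dimension `4`. -/
theorem result :
    (∀ M : MotivicValues, 4 ≤ Module.finrank ℚ
      ((Submodule.span ℚ (Set.range (family M))).map (perL M))) ∧
    ∃ b c : ℕ, (b = 5 ∨ b = 7) ∧ Odd c ∧ b < c ∧ c ≤ 63 ∧ ∀ M : MotivicValues,
      Module.finrank ℚ (Submodule.span ℚ {(1 : M.H), M.mot [3], M.mot [b], M.mot [c]}) = 4 ∧
      ∀ x ∈ Submodule.span ℚ {(1 : M.H), M.mot [3], M.mot [b], M.mot [c]}, M.per x = 0 → x = 0 := by
  constructor
  · intro M
    rw [Submodule.map_span, ← Set.range_comp]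
    have h := Pool.Agent.Run7.h851.T.Z_main
    set v : Fin 32 → ℝ := fun i => if i.1 = 0 then (1 : ℝ) else Pool.Agent.H337R2.zr (2 * i.1 + 1) with hv
    have h4 : 4 ≤ Module.finrank ℚ (Submodule.span ℚ (Set.range v)) := h
    -- the real numbers inside the complex numbers
    set ι : ℝ →ₗ[ℚ] ℂ := (Algebra.linearMap ℝ ℂ).restrictScalars ℚ with hι
    have hιi : Function.Injective ι := fun x y hxy => by
      have : ((x : ℝ) : ℂ) = ((y : ℝ) : ℂ) := hxy
      exact_mod_cast this
    have e1 : (perL M ∘ family M) = ι ∘ v := by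
      funext i
      rw [Function.comp_apply, Function.comp_apply, perL_apply, family, hv]
      simp only
      split_ifs with hi
      · rw [map_one]
        show (1 : ℂ) = ((1 : ℝ) : ℂ)
        norm_num
      · rw [per_single M (by omega)]
        rfl
    rw [e1, Set.range_comp, ← Submodule.map_span,
      ← (Submodule.equivMapOfInjective ι hιi (Submodule.span ℚ (Set.range v))).finrank_eq]
    exact h4
  · obtain ⟨b, c, hb, hc, hbc, hc63, h⟩ := Pool.Agent.Run7.h851.T.Z_explicit
    refine ⟨b, c, hb, hc, hbc, hc63, fun M => ?_⟩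
    have key : ∀ x y z w : ℚ, M.per (x • (1 : M.H) + y • M.mot [3] + z • M.mot [b] + w • M.mot [c]) = 0 →
        x = 0 ∧ y = 0 ∧ z = 0 ∧ w = 0 := by
      intro x y z w e
      apply Pool.Agent.Run7.h697.TP.rel h
      have e2 : perL M (x • (1 : M.H) + y • M.mot [3] + z • M.mot [b] + w • M.mot [c]) = 0 := e
      rw [map_add, map_add, map_add, map_smul, map_smul, map_smul, map_smul, perL_apply, perL_apply, perL_apply,
        perL_apply, map_one, per_single M (by norm_num), per_single M (by omega), per_single M (by omega)] at e2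
      rw [Rat.smul_def, Rat.smul_def, Rat.smul_def, Rat.smul_def] at e2
      have e3 : (((x : ℝ) + y * Pool.Agent.H337R2.zr 3 + z * Pool.Agent.H337R2.zr b +
          w * Pool.Agent.H337R2.zr c : ℝ) : ℂ) = 0 := by
        push_cast
        rw [← e2]
        ring
      exact_mod_cast e3
    have hli : LinearIndependent ℚ ![(1 : M.H), M.mot [3], M.mot [b], M.mot [c]] := by
      rw [Fintype.linearIndependent_iff]
      intro g hg
      rw [Fin.sum_univ_four] at hg
      simp only [Matrix.cons_val_zero, Matrix.cons_val_one, Matrix.cons_val] at hg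
      obtain ⟨h0, h1, h2, h3⟩ := key (g 0) (g 1) (g 2) (g 3) (by rw [hg, map_zero])
      intro i
      fin_cases i
      · exact h0
      · exact h1
      · exact h2
      · exact h3
    have hset : ({(1 : M.H), M.mot [3], M.mot [b], M.mot [c]} : Set M.H) =
        Set.range ![(1 : M.H), M.mot [3], M.mot [b], M.mot [c]] := by
      ext x
      constructor
      · rintro (rfl | rfl | rfl | rfl)
        exacts [⟨0, rfl⟩, ⟨1, rfl⟩, ⟨2, rfl⟩, ⟨3, rfl⟩]
      · rintro ⟨i, rfl⟩
        fin_cases i <;> simp
    refine ⟨?_, ?_⟩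
    · rw [hset, finrank_span_eq_card hli, Fintype.card_fin]
    · intro x hx hx0
      rw [hset, Submodule.mem_span_range_iff_exists_fun] at hx
      obtain ⟨g, rfl⟩ := hx
      rw [Fin.sum_univ_four] at hx0 ⊢
      simp only [Matrix.cons_val_zero, Matrix.cons_val_one, Matrix.cons_val] at hx0 ⊢
      obtain ⟨h0, h1, h2, h3⟩ := key _ _ _ _ hx0
      rw [h0, h1, h2, h3]
      simp

end Pool.Agent.Results.MP_e54452_nt.FourMotivicZetaValues
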