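import Pool.Agent.Run7.h467.GA.One
import Pool.Agent.Results.MP_e54452_nt.AlmostAllTuples

/-!
# MP_e54452_nt: the period map and the relations at the entries of all good rational approximations

Let `G` be a `ℚ`-algebra `H` without zero divisors with elements `mot(k)` for the admissible indices `k`, `mot() = 1`,
that have the stuffle product, and with a ring homomorphism `per : H → ℂ` that maps `mot(k)` to `ζ(k)`; for example the
motivic periods with the motivic multiple zeta values.

A pattern in `k` variables is a list of letters `b + u_1 s_1 + ... + u_k s_k` with natural numbers `b`, `u_j`; at a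
tuple `s` of natural numbers it gives an index. Its constant part is the list of its first letters up to the first letter
that depends on the variables, such as `(5, 1)` for `ζ(5, 1, s_1, 3, s_1 + s_2)`.

Let `α` be a point of `ℝ ^ d`, and let `(p, q)`, `p ∈ ℤ ^ d`, run through its approximations with
`|α_i - p_i / q| ≤ c q ^ (-1-σ)`; by Dirichlet's theorem there are infinitely many for `σ = 1 / d`, `c = 1`, for every `α`.
We consider ALL tuples `s` of `k ≤ d + 1` natural numbers of the same order of magnitude which are small linearly independent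
combinations `u_j · p + v_j q` of the entries of such an approximation, up to small errors: with coefficients at most
`c q ^ η` and errors at most `c q ^ θ`. For example `s = (q, p_1, ..., p_d)` or `s = (p_1, ..., p_d)`, with errors at most `c`.
A property of patterns and of a bound `H` for coefficients holds generically if it holds, for all patterns of the type
considered in `k` variables and for `H = C ^ q`, for all `C`, `c`, for all these tuples at all but finitely many `(p, q)`, for
all `α` but a set of Hausdorff dimension at most `(d + (k (d + 2) - 1) η + k θ) / (1 + σ)`; for all `k`, `d`, `σ`, `η`, `θ`. For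
`σ = 1 / d` the bound is smaller than `d` if `(k (d + 2) - 1) η + k θ < 1`; it is `d ^ 2 / (d + 1)` for `η = θ = 0`.

Theorem.
(1) Generically each linear relation between the numbers `ζ(w_i(s))` with integer coefficients at most `H` is a combination
`∑_u (∑_q d_u(q) Z(q)) Z(u)` of linear relations `∑_q d_u(q) ζ(q) = 0` between the initial segments `q` of the constant
parts, where the weights of `q` and `u` add up to that of a `w_i(s)`; this holds for all families `Z` with the stuffle
product, in all commutative rings.
(2) Let `Q` be a set of admissible indices with the empty index that contains the initial segments of its elements. Then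
`per` is injective on the span of the `mot(q)`, `q ∈ Q`, if and only if generically, for all patterns with constant parts in
`Q`, each linear relation between the numbers `ζ(w_i(s))` holds for the `mot(w_i(s))`; and if and only if for all patterns in
one variable that contain the variable this holds at one real number `α` (for `σ = 1`, `η = θ = 0`).
(3) The same for the algebra generated by the `mot(q)`, `q ∈ Q`, and polynomial relations of bounded degree.
(4) If `mot(2, 1) = mot(3)` then generically the linear relations lift, if the constant parts have weight at most three; if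
`mot(2 m)` is a rational multiple of `mot(2) ^ m`, as for the motivic multiple zeta values, then generically the polynomial
relations of bounded degree lift, if the constant parts are of the form `(2 m, ..., 2 m)`, for example empty.

`AlmostAllTuples` contains the same statements for all but `K N ^ (k - 1)` of the tuples in `[N, κ N] ^ k`. This does not
exclude exceptional tuples near all directions. The good approximations are a very thin set of vectors; the size of the set of
the exceptional `α` is estimated by the Hausdorff-Cantelli lemma, after a count of the vectors `(q, p)` for which some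
independent small forms are near an exceptional tuple (`Pool.Agent.Run7.h467.GA`).
-/

set_option autoImplicit false

open Filter MeasureTheory

namespace Pool.Agent.Results.MP_e54452_nt.GoodApproximations

open AlmostAllTuples (mzv Letter index AdmissiblePattern constantPart HasVariable Splits Lifts PolyLifts FrontSet
  EulerRelations MotivicValues AlmostAll)

/-- The members of the tuple `s` are at distance at most `c q ^ θ` from the values `u_j · p + v_j q` of linearly independent
integral linear forms with coefficients at most `c q ^ η`. -/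
def NearForms {d k : ℕ} (η θ c : ℝ) (p : Fin d → ℤ) (q : ℕ) (s : Fin k → ℕ) : Prop :=
  ∃ (u : Fin k → Fin d → ℤ) (v : Fin k → ℤ),
    (∀ a : Fin k → ℤ, (∀ i, ∑ j, a j * u j i = 0) → ∑ j, a j * v j = 0 → a = 0) ∧
    (∀ j i, |(u j i : ℝ)| ≤ c * (q : ℝ) ^ η) ∧ (∀ j, |(v j : ℝ)| ≤ c * (q : ℝ) ^ η) ∧
    ∀ j, |(s j : ℝ) - (∑ i, (u j i : ℝ) * p i + v j * q)| ≤ c * (q : ℝ) ^ θ

/-- For all `C`, `c` and all but finitely many approximations `(p, q)` of `α` with `|α_i - p_i / q| ≤ c q ^ (-1-σ)` the property
`E (C ^ q)` fails for all tuples `s` of natural numbers near independent small forms in `(p, q)`, with `s_i ≤ c s_j` and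
`q ≤ c s_j` for all `i`, `j`. -/
def Holds {d k : ℕ} (σ η θ : ℝ) (E : ℝ → (Fin k → ℕ) → Prop) (α : Fin d → ℝ) : Prop :=
  ∀ C c : ℝ, ∃ Q : ℕ, ∀ (p : Fin d → ℤ) (q : ℕ), Q ≤ q → (∀ i, |α i - p i / q| ≤ c / (q : ℝ) ^ (1 + σ)) →
    ∀ s : Fin k → ℕ, (∀ i j, (s i : ℝ) ≤ c * s j) → (∀ j, (q : ℝ) ≤ c * s j) → NearForms η θ c p q s → ¬ E (C ^ q) s

/-- Let `E w H s` be a property of tuples, for patterns `w` in `k` variables. For all `k ≥ 1`, `d`, `σ`, `η`, `θ` the set of the
`α` in `ℝ ^ d` for which `Holds` fails for the negation of `E`, for some admissible patterns in `k` variables with the property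
`A`, has Hausdorff dimension at most `(d + (k (d + 2) - 1) η + k θ) / (1 + σ)`. -/
def Generic (A : ∀ k : ℕ, List (Letter k) → Prop) (E : ∀ k r : ℕ, (Fin r → List (Letter k)) → ℝ → (Fin k → ℕ) → Prop) :
    Prop :=
  ∀ (k : ℕ), 1 ≤ k → ∀ (d : ℕ) (σ η θ : ℝ), 0 ≤ σ → 0 ≤ η → 0 ≤ θ → θ ≤ 1 →
    dimH {α : Fin d → ℝ | ∃ (r : ℕ) (w : Fin r → List (Letter k)), (∀ i, AdmissiblePattern (w i) ∧ A k (w i)) ∧
      ¬ Holds σ η θ (fun H s => ¬ E k r w H s) α} ≤ ENNReal.ofReal ((d + (k * (d + 2) - 1) * η + k * θ) / (1 + σ))

/-- the property `E` holds at the good approximations of one real number, for all patterns in one variable which contain the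
variable, with constant parts in `Q` -/
def OnePoint (Q : Set (List ℕ)) (E : ∀ k r : ℕ, (Fin r → List (Letter k)) → ℝ → (Fin k → ℕ) → Prop) : Prop :=
  ∀ (r : ℕ) (w : Fin r → List (Letter 1)), (∀ i, AdmissiblePattern (w i) ∧ constantPart (w i) ∈ Q ∧ HasVariable (w i)) →
    ∃ α : Fin 1 → ℝ, Holds 1 0 0 (fun H s => ¬ E 1 r w H s) α

lemma generic_of (A : ∀ k : ℕ, List (Letter k) → Prop)
    (E : ∀ k r : ℕ, (Fin r → List (Letter k)) → ℝ → (Fin k → ℕ) → Prop)
    (hE : ∀ k r w H H' s, H ≤ H' → E k r w H' s → E k r w H s)
    (h : ∀ k r (w : Fin r → List (Letter k)), (∀ i, AdmissiblePattern (w i) ∧ A k (w i)) → AlmostAll k (E k r w)) :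
    Generic A E := by
  intro k hk d σ η θ hσ hη hθ hθ1
  have h1 := Run7.h467.GA.metric hk (I := Σ r : ℕ, (Fin r → List (Letter k)))
    (fun i => ∀ j, AdmissiblePattern (i.2 j) ∧ A k (i.2 j)) (fun i H s => ¬ E k i.1 i.2 H s)
    (fun i H H' s hH hn h' => hn (hE k i.1 i.2 H H' s hH h')) (fun i hi κ => h k i.1 i.2 hi κ) d hσ hη hθ hθ1
  refine (dimH_mono ?_).trans h1
  rintro α ⟨r, w, hw, hH⟩
  exact ⟨⟨r, w⟩, hw, hH⟩

lemma one_of_generic (Q : Set (List ℕ)) (E : ∀ k r : ℕ, (Fin r → List (Letter k)) → ℝ → (Fin k → ℕ) → Prop)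
    (h : Generic (fun _ w => constantPart w ∈ Q) E) : OnePoint Q E := by
  have h1 := h 1 le_rfl 1 1 0 0 (by norm_num) le_rfl le_rfl zero_le_one
  obtain ⟨α, hα⟩ := Run7.h467.GA.exists_point le_rfl h1 (by norm_num)
  intro r w hw
  refine ⟨α, ?_⟩
  by_contra hcon
  exact hα ⟨r, w, fun i => ⟨(hw i).1, (hw i).2.1⟩, hcon⟩

lemma exists_of_one (Q : Set (List ℕ)) (E : ∀ k r : ℕ, (Fin r → List (Letter k)) → ℝ → (Fin k → ℕ) → Prop)
    (hE : ∀ k r w H H' s, H ≤ H' → E k r w H' s → E k r w H s) (h : OnePoint Q E) (r : ℕ)
    (w : Fin r → List (Letter 1)) (hw : ∀ i, AdmissiblePattern (w i) ∧ constantPart (w i) ∈ Q ∧ HasVariable (w i))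
    (B : ℝ) : ∃ s : Fin 1 → ℕ, 2 ≤ s 0 ∧ E 1 r w B s := by
  obtain ⟨α, hα⟩ := h r w hw
  obtain ⟨s, h1, -, h3⟩ := Run7.h467.GA.one_point (E := fun H s => ¬ E 1 r w H s)
    (fun H H' s hH hn h' => hn (hE 1 r w H H' s hH h')) (C := max B 1) (le_max_right _ _) hα 2
  exact ⟨fun _ => s, h1, hE 1 r w B _ _ (le_max_left _ _) (not_not.1 h3)⟩

/-- the polynomial relations of every degree -/
def Poly (G : MotivicValues) (D : ℕ) (k r : ℕ) (w : Fin r → List (Letter k)) (H : ℝ) (s : Fin k → ℕ) : Prop :=
  PolyLifts G w D H s

/-- **Theorem.** -/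
theorem result (G : MotivicValues) :
    -- (1) generically the relations split into relations between initial segments of the constant parts
    (Generic (fun _ _ => True) fun _ r w H s => ∀ c : Fin r → ℤ, (∀ i, |(c i : ℝ)| ≤ H) →
      ∑ i, (c i : ℝ) * mzv (index s (w i)) = 0 → Splits w s c) ∧
    (∀ Q : Set (List ℕ), FrontSet Q →
      -- (2) linear relations
      List.TFAE [
        ∀ x ∈ Submodule.span ℚ (G.mot '' Q), G.per x = 0 → x = 0,
        Generic (fun _ w => constantPart w ∈ Q) fun _ _ w => Lifts G w,
        OnePoint Q fun _ _ w => Lifts G w] ∧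
      -- (3) polynomial relations
      List.TFAE [
        ∀ x ∈ Algebra.adjoin ℚ (G.mot '' Q), G.per x = 0 → x = 0,
        ∀ D : ℕ, Generic (fun _ w => constantPart w ∈ Q) (Poly G D),
        ∀ D : ℕ, OnePoint Q (Poly G D)]) ∧
    -- (4) constant parts of small weight, and constant parts `(2 m, ..., 2 m)`
    (G.mot [2, 1] = G.mot [3] →
      Generic (fun _ w => (constantPart w).sum ≤ 3) fun _ _ w => Lifts G w) ∧
    (EulerRelations G → ∀ D : ℕ,
      Generic (fun _ w => ∃ n m : ℕ, 1 ≤ m ∧ constantPart w = List.replicate n (2 * m)) (Poly G D)) := by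
  obtain ⟨r1, r2, r3, -, r5⟩ := AlmostAllTuples.result G
  have mL : ∀ (k r : ℕ) (w : Fin r → List (Letter k)) (H H' : ℝ) (s : Fin k → ℕ), H ≤ H' → Lifts G w H' s →
      Lifts G w H s := fun k r w H H' s hH h c hc => h c fun i => (hc i).trans hH
  have mP : ∀ D : ℕ, ∀ (k r : ℕ) (w : Fin r → List (Letter k)) (H H' : ℝ) (s : Fin k → ℕ), H ≤ H' →
      Poly G D k r w H' s → Poly G D k r w H s := fun D k r w H H' s hH h P hP hm => h P hP fun m => (hm m).trans hH
  refine ⟨?_, fun Q hQ => ⟨?_, ?_⟩, fun h21 => ?_, fun hE D => ?_⟩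
  · refine generic_of _ _ (fun k r w H H' s hH h c hc => h c fun i => (hc i).trans hH) fun k r w hw => ?_
    exact r1 k r w fun i => (hw i).1
  · obtain ⟨t2, -, -⟩ := r2 Q hQ
    tfae_have 1 → 2 := fun h => generic_of _ _ mL ((t2.out 0 1).1 h)
    tfae_have 2 → 3 := fun h => one_of_generic Q _ h
    tfae_have 3 → 1 := fun h => (t2.out 0 2).2 (exists_of_one Q _ mL h)
    tfae_finish
  · obtain ⟨-, -, t4⟩ := r2 Q hQ
    tfae_have 1 → 2 := by
      intro h D
      have hb := (t4.out 0 1).1 h
      exact generic_of _ _ (mP D) fun k r w hw => hb k r w hw D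
    tfae_have 2 → 3 := fun h D => one_of_generic Q _ (h D)
    tfae_have 3 → 1 := fun h => (t4.out 0 2).2 fun r w hw D B => exists_of_one Q _ (mP D) (h D) r w hw B
    tfae_finish
  · exact generic_of _ _ mL fun k r w hw => r3 h21 k r w hw
  · exact generic_of _ _ (mP D) fun k r w hw => r5 hE k r w hw D

end Pool.Agent.Results.MP_e54452_nt.GoodApproximations
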