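import Mathlib
import Pool.Agent.Run7.h867.MZ.Adm
import Pool.Agent.Run7.h867.MZ.General

/-!
# The period map is injective on small polynomials in typical multiple zeta values

There are `2^{w-2}` multiple zeta values `ζ(s)` of weight `w`.  For every finite set `S` of monomials in `N` variables,
every `H ≥ 1` and all weights `W_1, ..., W_N ≥ w ≥ 2`, the proportion of the `N`-tuples of indices of weights
`W_1, ..., W_N` for which some nonzero integer polynomial `P` with monomials in `S` and coefficients at most `H` in
absolute value vanishes at the multiple zeta values `v` of the tuple is at most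
`C(|S|,2)·(2 log_2(|S| H) + 1)·5/√w`; outside these exceptional tuples every monomial of such a `P` is at most
`|S|·|P(v)|` in absolute value.  For all other tuples the period map is injective on the polynomials in the motivic
multiple zeta values of the tuple with monomials in `S` and coefficients at most `H / 2` in absolute value.

The proof rests on the inequality `(Z - d) ζ(u p v) ≤ d ζ(u z v)` for words in the letters `z = dt/t`,
`p = dt/(1-t)`, where `Z` is the number of the letters `z` of `u` and `d` the number of the letters `p` of `v`, and on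
Sperner's theorem.
-/

set_option autoImplicit false

namespace Pool.Agent.Results.MP_e54452_nt.TypicalMultipleZetaValues

open Finset Filter Topology

/-- the sum of `∏_j 1 / k_j ^ s_j` over `m > k_1 > ... > k_r ≥ 1` (it is `1` for the empty index) -/
noncomputable def trunc : List ℕ → ℕ → ℝ
  | [], _ => 1
  | a :: s, m => ∑ j ∈ Finset.Ico 1 m, 1 / (j : ℝ) ^ a * trunc s j

/-- the multiple zeta value `ζ(s_1, ..., s_r)`, the limit of the truncated sums (`s_1` belongs to the largest variable) -/
noncomputable def zeta (s : List ℕ) : ℝ := limUnder atTop (trunc s)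

/-- the indices of the multiple zeta values of weight `w`: `r ≥ 1`, `s_j ≥ 1`, `s_1 ≠ 1` and `s_1 + ... + s_r = w` -/
def indices (w : ℕ) : Set (List ℕ) := {s | s ≠ [] ∧ (∀ a ∈ s, 1 ≤ a) ∧ s.head? ≠ some 1 ∧ s.sum = w}

/-- the monomials of `P` are in `S` and its coefficients are at most `H` in absolute value -/
def Small {N : ℕ} (S : Finset (Fin N →₀ ℕ)) (H : ℝ) (P : MvPolynomial (Fin N) ℤ) : Prop :=
  P.support ⊆ S ∧ ∀ α, |((P.coeff α : ℤ) : ℝ)| ≤ H

/-- the tuples of indices of weights `W_1, ..., W_N` with multiple zeta values `v_1, ..., v_N` for which there is a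
nonzero integer polynomial `P` with monomials in `S` and coefficients at most `H` in absolute value such that
`P(v) = 0`, or `|S|·|P(v)|` is smaller than the absolute value of a monomial of `P` at `v` -/
def exceptional {N : ℕ} (S : Finset (Fin N →₀ ℕ)) (H : ℕ) (W : Fin N → ℕ) : Set (Fin N → List ℕ) :=
  {u | (∀ i, u i ∈ indices (W i)) ∧ ∃ P : MvPolynomial (Fin N) ℤ, P ≠ 0 ∧ Small S H P ∧
    (MvPolynomial.aeval (fun i => zeta (u i)) P = 0 ∨
      ∃ α ∈ P.support, (#S : ℝ) * |MvPolynomial.aeval (fun i => zeta (u i)) P| < |∏ i, zeta (u i) ^ α i|)}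

theorem trunc_same (s : List ℕ) : ∀ m, trunc s m = Run7.h867.MZ.tr s m := by
  induction s with
  | nil => intro m; rfl
  | cons a s ih =>
    intro m
    rw [trunc, Run7.h867.MZ.tr]
    exact sum_congr rfl fun j _ => by rw [ih]

theorem zeta_same (s : List ℕ) : zeta s = Run7.h867.MZ.mz s := by
  have : trunc s = Run7.h867.MZ.tr s := funext (trunc_same s)
  rw [zeta, Run7.h867.MZ.mz, this]

/-- there are `2^{w-2}` indices of weight `w`, their values are well-defined and positive, the number of the
exceptional tuples is small, and for all other tuples the period map is injective on the small polynomials in the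
motivic multiple zeta values: let `R` be a commutative ring with elements `mot(s)` and a ring homomorphism
`per : R → ℂ` with `per(mot(s)) = ζ(s)` for all indices; then different small polynomials `P`, `Q` have different
values `per(P(mot(u)))`, `per(Q(mot(u)))` -/
theorem result :
    (∀ w : ℕ, 2 ≤ w → (indices w).ncard = 2 ^ (w - 2)) ∧
    (∀ w : ℕ, 2 ≤ w → ∀ s ∈ indices w, Tendsto (trunc s) atTop (𝓝 (zeta s)) ∧ 0 < zeta s) ∧
    ∀ (N : ℕ) (S : Finset (Fin N →₀ ℕ)) (H w : ℕ) (W : Fin N → ℕ), S.Nonempty → 1 ≤ H → 2 ≤ w →
      (∀ i, w ≤ W i) →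
      ((exceptional S H W).Finite ∧ ((exceptional S H W).ncard : ℝ) ≤
        ((#S).choose 2 : ℝ) * (2 * Real.logb 2 (#S * H) + 1) * (5 / √(w : ℝ)) * ∏ i, (2 ^ (W i - 2) : ℝ)) ∧
      ∀ u : Fin N → List ℕ, (∀ i, u i ∈ indices (W i)) → u ∉ exceptional S H W →
        ∀ (R : Type) [CommRing R] (mot : List ℕ → R) (per : R →+* ℂ),
          (∀ k, ∀ s ∈ indices k, per (mot s) = zeta s) →
          ∀ P Q : MvPolynomial (Fin N) ℤ, Small S (H / 2) P → Small S (H / 2) Q →
            per (MvPolynomial.aeval (fun i => mot (u i)) P) = per (MvPolynomial.aeval (fun i => mot (u i)) Q) →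
              P = Q := by
  classical
  have hind : ∀ w, 2 ≤ w → indices w = (Run7.h867.MZ.A (w - 2) : Set (List ℕ)) := by
    intro w hw
    ext s
    rw [mem_coe, Run7.h867.MZ.mem_A, show w - 2 + 2 = w by omega]
    rfl
  refine ⟨?_, ?_, ?_⟩
  · intro w hw
    rw [hind w hw, Set.ncard_coe_finset, Run7.h867.MZ.card_A]
  · intro w hw s hs
    have h1 : trunc s = Run7.h867.MZ.tr s := funext (trunc_same s)
    have h2 : s ∈ Run7.h867.MZ.adm (w - 2 + 2) := by
      rw [show w - 2 + 2 = w by omega]
      exact hs
    rw [h1, zeta_same]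
    exact ⟨Run7.h867.MZ.tendsto_tr h2, Run7.h867.MZ.mz_pos h2⟩
  · intro N S H w W hS hH hw hW
    constructor
    · obtain ⟨κ, hκ⟩ : ∃ κ : ℝ, κ = 5 / √(w : ℝ) := ⟨_, rfl⟩
      have hκ0 : 0 ≤ κ := by rw [hκ]; positivity
      have hmain := Run7.h867.GT.main (fun i => Run7.h867.MZ.A (W i - 2)) (fun i => by
          rw [← card_pos, Run7.h867.MZ.card_A]; positivity) Run7.h867.MZ.mz (fun i l hl => by
          exact (Run7.h867.MZ.mz_pos (Run7.h867.MZ.mem_A.1 hl)).ne') κ hκ0 (fun i x => by
          refine (Run7.h867.MZ.anti_A (W i - 2) x).trans ?_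
          refine mul_le_mul_of_nonneg_left ?_ (Nat.cast_nonneg _)
          have h1 := hW i
          rw [hκ, show W i - 2 + 2 = W i by omega]
          have h2 : (0 : ℝ) < √(w : ℝ) := Real.sqrt_pos.2 (by exact_mod_cast (by omega : 0 < w))
          refine div_le_div_of_nonneg_left (by norm_num) h2 (Real.sqrt_le_sqrt ?_)
          exact_mod_cast h1) S H hH hS
      have hsub : exceptional S H W ⊆ (((Fintype.piFinset fun i => Run7.h867.MZ.A (W i - 2)).filter fun u =>
          Run7.h867.GT.Bad S H fun i => Run7.h867.MZ.mz (u i) : Finset (Fin N → List ℕ)) : Set (Fin N → List ℕ)) := by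
        intro u hu
        obtain ⟨hu1, P, hP0, hP, hor⟩ := hu
        rw [mem_coe, mem_filter, Fintype.mem_piFinset]
        have hmem : ∀ i, u i ∈ Run7.h867.MZ.A (W i - 2) := by
          intro i
          have := hu1 i
          rw [hind (W i) (hw.trans (hW i)), mem_coe] at this
          exact this
        refine ⟨hmem, P, hP0, hP.1, ?_, ?_⟩
        · intro a
          have h2 := hP.2 a
          exact_mod_cast h2
        · simp only [zeta_same] at hor
          exact hor
      refine ⟨(Finset.finite_toSet _).subset hsub, ?_⟩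
      have h1 := Set.ncard_le_ncard hsub (Finset.finite_toSet _)
      rw [Set.ncard_coe_finset] at h1
      calc ((exceptional S H W).ncard : ℝ) ≤ _ := Nat.cast_le.2 h1
        _ ≤ _ := hmain
        _ = _ := by
          rw [hκ]
          congr 1
          exact prod_congr rfl fun i _ => by rw [Run7.h867.MZ.card_A]; push_cast; rfl
    · intro u hu hex R _ mot per hper P Q hP hQ heq
      by_contra hne
      apply hex
      refine ⟨hu, P - Q, sub_ne_zero.2 hne, ⟨?_, ?_⟩, Or.inl ?_⟩
      · intro a ha
        rcases mem_union.1 (MvPolynomial.support_sub (Fin N) P Q ha) with h | h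
        · exact hP.1 h
        · exact hQ.1 h
      · intro a
        rw [MvPolynomial.coeff_sub]
        push_cast
        have h1 := hP.2 a
        have h2 := hQ.2 a
        calc |((P.coeff a : ℤ) : ℝ) - ((Q.coeff a : ℤ) : ℝ)| ≤ |((P.coeff a : ℤ) : ℝ)| + |((Q.coeff a : ℤ) : ℝ)| := abs_sub _ _
          _ ≤ H / 2 + H / 2 := add_le_add h1 h2
          _ = H := by ring
      · have h1 : (per.comp (MvPolynomial.aeval (fun i => mot (u i)) : MvPolynomial (Fin N) ℤ →ₐ[ℤ] R).toRingHom) =
            (Complex.ofRealHom.comp
              (MvPolynomial.aeval (fun i => zeta (u i)) : MvPolynomial (Fin N) ℤ →ₐ[ℤ] ℝ).toRingHom) := by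
          refine MvPolynomial.ringHom_ext (fun r => ?_) (fun i => ?_)
          · simp
          · simp [hper (W i) (u i) (hu i)]
        have h2 : per (MvPolynomial.aeval (fun i => mot (u i)) (P - Q)) = 0 := by
          rw [map_sub, map_sub, heq, sub_self]
        have h3 := RingHom.congr_fun h1 (P - Q)
        have h4 : (MvPolynomial.aeval (fun i => zeta (u i)) (P - Q) : ℝ) = (0 : ℂ) := by
          have h5 : per (MvPolynomial.aeval (fun i => mot (u i)) (P - Q)) =
              ((MvPolynomial.aeval (fun i => zeta (u i)) (P - Q) : ℝ) : ℂ) := h3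
          rw [← h5, h2]
        exact_mod_cast h4

end Pool.Agent.Results.MP_e54452_nt.TypicalMultipleZetaValues
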